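import Pool.Agent.Lib.MP_6d445e_gt.H32.PplimA

/-!
# Module PPLIM: preservation of the P-point at limits
-/

universe u v w

open Cardinal Filter

namespace Pool.Agent.Lib.MP_6d445e_gt.H32

open Pool.Agent.Lib.MP_6d445e_gt
open Pool.Agent.Lib.MP_100a6c_lc
open Pool.Agent.Lib.MP_c5d73d_lc.F (pr)
open Pool.Agent.Lib.MP_e6fef2_lc
open Pool.Agent.Lib.MP_c5d73d_lc.F.H62 (pr_mono eq_iSup_pr)
open PA

theorem club_countable' (T : Type u) : ∀ᶠ N in club.{u}, Countable {t : T // In N t} := by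
  filter_upwards [all_club.{u}.2.1] with N hN
  have h1 : Function.Injective (fun t : {t : T // In N t} => (⟨⟨T, t.1⟩, t.2⟩ : N)) := by
    intro a b h
    have h2 := congrArg Subtype.val h
    simp only [Sigma.mk.injEq, heq_eq_eq, true_and] at h2
    exact Subtype.ext h2
  have := hN.to_subtype
  exact h1.countable

theorem mem_iInf_prop' {A : Type u} [CompleteBooleanAlgebra A] (g : Ult A) (P : Prop) (a : P → A) :
    (⨅ h : P, a h) ∈ g ↔ ∀ h : P, a h ∈ g := by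
  by_cases hP : P
  · simp [hP]
  · simp [hP, g.mem_top]

section

variable {L : Type u} {A : L → Type u} [∀ i, CompleteBooleanAlgebra (A i)]
  {C : Type u} [CompleteBooleanAlgebra C]

/-- supported conditions -/
def Supp (e : ∀ i, A i → C) (c : C) : Prop :=
  ∃ s : Set L, s.Countable ∧ s.Nonempty ∧ c = ⨅ i ∈ s, e i (prj (e i) c)

/-- the relation between successive states -/
def EE (e : ∀ i, A i → C) (x : ℕ → C) (m : ℕ) (c c' : C) : Prop :=
  c' ≤ c ∧ Supp e c' ∧ ∀ n ≤ m, c' ≤ x n ∨ c' ≤ (x n)ᶜ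

theorem dec (x : ℕ → C) (m : ℕ) : ∀ d : C, d ≠ ⊥ →
    ∃ d' ≤ d, d' ≠ ⊥ ∧ ∀ n < m, d' ≤ x n ∨ d' ≤ (x n)ᶜ := by
  induction m with
  | zero => exact fun d hd => ⟨d, le_rfl, hd, fun n hn => absurd hn (Nat.not_lt_zero n)⟩
  | succ m ih =>
    intro d hd
    obtain ⟨d', h1, h2, h3⟩ := ih d hd
    by_cases h4 : d' ⊓ x m = ⊥
    · refine ⟨d', h1, h2, fun n hn => ?_⟩
      rcases Nat.lt_succ_iff_lt_or_eq.1 hn with h5 | h5
      · exact h3 n h5
      · subst h5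
        right
        rw [le_compl_iff_disjoint_right, disjoint_iff]
        exact h4
    · refine ⟨d' ⊓ x m, inf_le_left.trans h1, h4, fun n hn => ?_⟩
      rcases Nat.lt_succ_iff_lt_or_eq.1 hn with h5 | h5
      · exact (h3 n h5).imp (fun h => inf_le_left.trans h) fun h => inf_le_left.trans h
      · subst h5
        exact Or.inl inf_le_right

theorem dens {e : ∀ i, A i → C} (hdp : DP A e) (x : ℕ → C) (m : ℕ) {c d : C} (hd : d ≤ c) :
    d ≤ sSup {c' | c' ≤ d ∧ EE e x m c c'} := by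
  by_contra hcon
  have h1 : d ⊓ (sSup {c' | c' ≤ d ∧ EE e x m c c'})ᶜ ≠ ⊥ := by
    intro h
    apply hcon
    rw [← sdiff_eq_bot_iff, sdiff_eq]
    exact h
  obtain ⟨d1, h2, h3, h4⟩ := dec x (m + 1) _ h1
  obtain ⟨c', h5, h6, h7⟩ := hdp d1 h3
  have h8 : c' ≤ sSup {c' | c' ≤ d ∧ EE e x m c c'} := by
    refine le_sSup ⟨h5.trans (h2.trans inf_le_left), (h5.trans (h2.trans inf_le_left)).trans hd,
      h7, fun n hn => ?_⟩
    exact (h4 n (Nat.lt_succ_of_le hn)).imp (fun h => h5.trans h) fun h => h5.trans h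
  apply h6
  rw [← le_bot_iff, ← inf_compl_self (sSup {c' | c' ≤ d ∧ EE e x m c c'})]
  exact le_inf h8 (h5.trans (h2.trans inf_le_right))

end

/-- the set of natural numbers -/
def swTop : Sw.{u} := ⟨⟨Set.univ⟩, Set.infinite_univ⟩

section

variable {L : Type u} [LinearOrder L] {A : L → Type u} [∀ i, CompleteBooleanAlgebra (A i)]
  {f : ∀ i j, A i → A j} {C : Type u} [CompleteBooleanAlgebra C] {e : ∀ i, A i → C}
  {ι : ∀ i, H1.RO Sw.{u} → A i}

/-- the value of a pair of a condition and an infinite set -/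
noncomputable def RR (e : ∀ i, A i → C) (ι : ∀ i, H1.RO Sw.{u} → A i) (Z : ∀ j : L, C → ℕ → A j)
    (j : L) (c : C) (B : Sw.{u}) : A j :=
  prj (e j) c ⊓ (ι j (pr B) ⊓ ⨅ n ∈ B.S, Z j c n)

open Classical in
/-- the sequence of names used for GAP -/
noncomputable def WW (f : ∀ i j, A i → A j) (e : ∀ i, A i → C) (ι : ∀ i, H1.RO Sw.{u} → A i)
    (x : ℕ → C) (Z : ∀ j : L, C → ℕ → A j) (m : ℕ) (j j' : L) (c : C) (k : ℕ)
    (t : C × Sw.{u}) : A j :=
  if t.1 ≤ c ⊓ agr (e j) (Z j c) x k ∧ EE e x m c t.1 then prj (f j j') (RR e ι Z j' t.1 t.2)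
  else ⊥

open Classical in
/-- the sequence of names of sets used for GAP -/
noncomputable def BB (C : Type u) (A : Type u) [CompleteBooleanAlgebra A] (_ : ℕ)
    (t : C × Sw.{u}) (n : ℕ) : A := if n ∈ t.2.S then ⊤ else ⊥

/-- the value of a state -/
noncomputable def UU (e : ∀ i, A i → C) (ι : ∀ i, H1.RO Sw.{u} → A i) (Z : ∀ j : L, C → ℕ → A j)
    (N : Set El.{u}) (s : Sw.{u}) (n₀ : ℕ) (j : L) (c : C) : A j :=
  (ι j (pr s) ⊓ gen (A j) N) ⊓ (prj (e j) c ⊓ ⨅ n, ⨅ _ : n ∈ s.S ∧ n₀ ≤ n, Z j c n)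

theorem WW_sup (hch : IsCh A f) (htop : IsTop A f e) (hdp : DP A e) {x : ℕ → C} {i₀ : L} {c₁ : C}
    {Z : ∀ j : L, C → ℕ → A j} (hZ : ∀ j, i₀ ≤ j → ∀ c ≤ c₁,
      prj (e j) c ≤ itp (e j) (prj (e j)) c x (Z j c) ⊓ pos (ι j) (Z j c))
    (m : ℕ) {j j' : L} (hj : i₀ ≤ j) (hjj : j ≤ j') {c : C} (hc : c ≤ c₁) (k : ℕ) :
    prj (e j) c ≤ ⨆ t, WW f e ι x Z m j j' c k t := by
  have h1 : prj (e j) c ≤ prj (e j) (c ⊓ agr (e j) (Z j c) x k) :=
    (hZ j hj c hc).trans (inf_le_left.trans (itp_le _ _ _ _))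
  refine h1.trans ((prj_mono (htop.ce j) (dens hdp x m inf_le_left)).trans ?_)
  rw [prj_sSup (htop.ce j)]
  refine iSup₂_le fun c' hc' => ?_
  have hc'1 : c' ≤ c₁ := hc'.1.trans (inf_le_left.trans hc)
  rw [prj_comp (hch.ce j j' hjj) (htop.ce j') (htop.comp j j' hjj)]
  have h2 : prj (e j') c' ≤ ⨆ B : Sw.{u}, RR e ι Z j' c' B := by
    have h3 := (hZ j' (hj.trans hjj) c' hc'1).trans inf_le_right
    calc prj (e j') c' ≤ prj (e j') c' ⊓ pos (ι j') (Z j' c') := le_inf le_rfl h3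
      _ = _ := by
        unfold pos RR
        rw [inf_iSup_eq]
  refine (prj_mono (hch.ce j j' hjj) h2).trans ?_
  rw [prj_iSup (hch.ce j j' hjj)]
  refine iSup_le fun B => le_trans ?_ (le_iSup _ (c', B))
  unfold WW
  have hc'' : (c', B).1 ≤ c ⊓ agr (e j) (Z j c) x k ∧ EE e x m c (c', B).1 := hc'
  rw [if_pos hc'']

theorem step (hITP : ItpStatement.{u}) (hch : IsCh A f) (htop : IsTop A f e) (hdp : DP A e)
    (hιf : ∀ i j, i ≤ j → ∀ x, f i j (ι i x) = ι j x)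
    {x : ℕ → C} {i₀ : L} {c₁ : C}
    {Z : ∀ j : L, C → ℕ → A j} (hZ : ∀ j, i₀ ≤ j → ∀ c ≤ c₁,
      prj (e j) c ≤ itp (e j) (prj (e j)) c x (Z j c) ⊓ pos (ι j) (Z j c))
    {N : Set El.{u}} {s : Sw.{u}} {n₀ m : ℕ} {j j' : L} (hj : i₀ ≤ j) (hjj : j ≤ j')
    {c : C} (hc : c ≤ c₁)
    (hgap : (∀ k t, WW f e ι x Z m j j' c k t ≤ pos (ι j) (BB C (A j) k t)) →
      ∀ᶠ g in ae (A j), ι j (pr s) ∈ g → gen (A j) N ∈ g →
        (∀ k, (⨆ t, WW f e ι x Z m j j' c k t) ∈ g) →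
          ∀ m', ∃ k, m' ≤ k ∧ ∃ t, In N t ∧ WW f e ι x Z m j j' c k t ∈ g ∧
            ∀ n ∈ s.S, k ≤ n → BB C (A j) k t n ∈ g)
    (hpe : ∀ r : A j', In N r → gen (A j) N ⊓ prj (f j j') r ≤ prj (f j j') (gen (A j') N ⊓ r))
    (hR : ∀ c' B, In N c' → In N B → In N (RR e ι Z j' c' B))
    (hT : ∀ t : C × Sw.{u}, In N t → In N t.1 ∧ In N t.2) :
    UU e ι Z N s n₀ j c ≤ prj (f j j')
      (⨆ c' : {c : C // In N c ∧ c ≤ c₁}, ⨆ _ : EE e x m c c'.1, UU e ι Z N s n₀ j' c'.1) := by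
  have hf := hch.ce j j' hjj
  have hw : ∀ k t, WW f e ι x Z m j j' c k t ≤ pos (ι j) (BB C (A j) k t) := by
    intro k t
    unfold WW
    split_ifs with h
    · refine le_pos (B := t.2) ?_ fun n hn => ?_
      · have h1 : prj (f j j') (RR e ι Z j' t.1 t.2) ≤ prj (f j j') (ι j' (pr t.2)) :=
          prj_mono hf (inf_le_right.trans inf_le_left)
        rwa [← hιf j j' hjj, prj_f hf] at h1
      · unfold BB
        rw [if_pos hn]
        exact le_top
    · exact bot_le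
  refine le_of_ae ?_
  filter_upwards [hgap hw] with g hg hu
  unfold UU at hu
  rw [g.mem_inf, g.mem_inf, g.mem_inf] at hu
  obtain ⟨⟨hs, hgen⟩, hpc, hG⟩ := hu
  obtain ⟨k, -, ⟨c', B⟩, hN, hWg, hB⟩ := hg hs hgen
    (fun k => g.mono (WW_sup hch htop hdp hZ m hj hjj hc k) hpc) 0
  unfold WW at hWg
  split_ifs at hWg with hcond
  swap
  · exact absurd hWg g.not_bot
  obtain ⟨hc', hE⟩ := hcond
  simp only at hc' hE hWg
  have hc'1 : c' ≤ c₁ := hc'.trans (inf_le_left.trans hc)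
  have hNc := (hT _ hN).1
  have hNB := (hT _ hN).2
  simp only at hNc hNB
  have h1 := hpe _ (hR c' B hNc hNB)
  set r := RR e ι Z j' c' B with hr
  set G0 : A j := ⨅ n, ⨅ _ : n ∈ s.S ∧ n₀ ≤ n, Z j c n with hG0
  have h2 : prj (f j j') (gen (A j') N ⊓ r) ∈ g := g.mono h1 (g.mem_inf.2 ⟨hgen, hWg⟩)
  have h3 : prj (f j j') ((gen (A j') N ⊓ r) ⊓ f j j' (ι j (pr s) ⊓ G0)) ∈ g := by
    rw [prj_inf hf]
    exact g.mem_inf.2 ⟨h2, g.mem_inf.2 ⟨hs, hG⟩⟩
  refine g.mono (prj_mono hf ?_) h3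
  refine le_trans ?_ (le_iSup₂_of_le (⟨c', hNc, hc'1⟩ : {c : C // In N c ∧ c ≤ c₁}) hE le_rfl)
  unfold UU
  have q1 : (gen (A j') N ⊓ r) ⊓ f j j' (ι j (pr s) ⊓ G0) ≤ ι j' (pr s) := by
    rw [f_inf hf, hιf j j' hjj]
    exact inf_le_right.trans inf_le_left
  have q2 : (gen (A j') N ⊓ r) ⊓ f j j' (ι j (pr s) ⊓ G0) ≤ f j j' G0 := by
    rw [f_inf hf]
    exact inf_le_right.trans inf_le_right
  have q3 : (gen (A j') N ⊓ r) ⊓ f j j' (ι j (pr s) ⊓ G0) ≤ prj (e j') c' :=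
    inf_le_left.trans (inf_le_right.trans inf_le_left)
  refine le_inf (le_inf q1 (inf_le_left.trans inf_le_left)) (le_inf q3 ?_)
  refine le_iInf₂ fun n hn => ?_
  rcases le_or_gt k n with hkn | hkn
  · have hnB : n ∈ B.S := by
      have h4 := hB n hn.1 hkn
      unfold BB at h4
      by_contra h5
      rw [if_neg h5] at h4
      exact g.not_bot h4
    exact inf_le_left.trans (inf_le_right.trans (inf_le_right.trans (inf_le_right.trans
      (iInf₂_le n hnB))))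
  · have q4 : (gen (A j') N ⊓ r) ⊓ f j j' (ι j (pr s) ⊓ G0) ≤ f j j' (Z j c n) :=
      q2.trans ((f_le hf).2 (iInf₂_le n hn))
    have hadd := (hITP (A j') C (e j') (htop.ce j')).2.2.1
    obtain ⟨-, -, -, -, -, hagr, -⟩ := (hITP (A j') C (e j') (htop.ce j')).2.2.2.2 _ hadd
    have h5 : c' ≤ agr (e j') (fun i => f j j' (Z j c i)) x k := by
      rw [agr_comp (htop.comp j j' hjj)]
      exact hc'.trans inf_le_right
    have h6 := hagr c' x (Z j' c') _ k h5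
    have q5 : (gen (A j') N ⊓ r) ⊓ f j j' (ι j (pr s) ⊓ G0) ≤
        (f j j' (Z j c n) ⊓ Z j' c' n) ⊔ ((f j j' (Z j c n))ᶜ ⊓ (Z j' c' n)ᶜ) :=
      q3.trans (((hZ j' (hj.trans hjj) c' hc'1).trans inf_le_left).trans (h6.trans
        (iInf₂_le n hkn)))
    refine (le_inf q4 q5).trans ?_
    rw [inf_sup_left]
    refine sup_le (inf_le_right.trans inf_le_right) ?_
    rw [← inf_assoc, inf_compl_self, bot_inf_eq]
    exact bot_le

theorem pr_swTop : (pr swTop.{u} : H1.RO Sw.{u}) = ⊤ := by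
  rw [eq_top_iff, eq_iSup_pr (⊤ : H1.RO Sw.{u})]
  refine iSup_le fun s => pr_mono ?_
  rw [Sw.le_def]
  have : s.1.S \ swTop.{u}.S = ∅ := by
    ext n
    simp [swTop, Sw.S]
  rw [this]
  exact Set.finite_empty

theorem core (hITP : ItpStatement.{u}) (hNG : NgStatement.{u}) (hGAP : GapStatement.{u})
    (hAF : AfStatement.{u, u}) (hSGS : SgsStatement.{u})
    (hch : IsCh A f) (htop : IsTop A f e) (htp : TP A f e) (hdp : DP A e)
    (hpe : ∀ i j, i ≤ j → PE (f i j)) (hιce : ∀ i, IsCE (ι i)) (hιpe : ∀ i, PE (ι i))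
    (hιf : ∀ i j, i ≤ j → ∀ x, f i j (ι i x) = ι j x) (hPP : ∀ i, PP (ι i))
    {κ : H1.RO Sw.{u} → C} (hκ : ∀ j x, e j (ι j x) = κ x)
    {x : ℕ → C} {i₀ : L} {c₁ : C} (hgood : Good e ι x i₀ c₁) (hne : c₁ ≠ ⊥) :
    ∃ p ≤ c₁, p ≠ ⊥ ∧ p ≤ pos κ x := by
  classical
  let Z : ∀ j : L, C → ℕ → A j := fun j c =>
    if h : i₀ ≤ j ∧ c ≤ c₁ then Classical.choose (hgood j h.1 c h.2) else fun _ => ⊤
  have hZ : ∀ j, i₀ ≤ j → ∀ c ≤ c₁,
      prj (e j) c ≤ itp (e j) (prj (e j)) c x (Z j c) ⊓ pos (ι j) (Z j c) := by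
    intro j hj c hc
    have h1 : Z j c = Classical.choose (hgood j hj c hc) := dif_pos ⟨hj, hc⟩
    rw [h1]
    exact Classical.choose_spec (hgood j hj c hc)
  let sp : C → Set L := fun c => if h : Supp e c then Classical.choose h else ∅
  have hsp : ∀ c, Supp e c →
      (sp c).Countable ∧ (sp c).Nonempty ∧ c = ⨅ i ∈ sp c, e i (prj (e i) c) := by
    intro c h
    have h1 : sp c = Classical.choose h := dif_pos h
    rw [h1]
    exact Classical.choose_spec h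
  obtain ⟨hex, -, hcount, hconst, hnorm, hf1, hf2, hset, -⟩ := all_club.{u}
  -- club many `N`
  have k1 := hconst L i₀
  have k2 := hconst C c₁
  have k3 := hconst Sw.{u} swTop
  have k4 := hconst (A i₀) (prj (e i₀) c₁)
  have k5 := hconst (Sw.{u} → A i₀) fun B : Sw.{u} => ι i₀ (pr B) ⊓ ⨅ n ∈ B.S, Z i₀ c₁ n
  have k6 := all_xnz.{u} Sw.{u} hSGS.1 (A i₀) (ι i₀) (hιce i₀) (hιpe i₀)
  have k7 : SGC Sw.{u} := hSGS.1
  have k8 := hNG (A i₀) Sw.{u}
  have k9 := (all_dmr.{u} Sw.{u}).2.2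
  have k10 := club_countable' L
  have k11 := club_countable' C
  have k12 := hnorm L _ fun j => hGAP (A j) (ι j) (hιce j) (hιpe j) (hPP j) (C × Sw.{u})
  have k13 : ∀ᶠ N in club, ∀ j : L, In N j → ∀ j' : L, In N j' → j ≤ j' → ∀ c : A j', In N c →
      gen (A j) N ⊓ prj (f j j') c ≤ prj (f j j') (gen (A j') N ⊓ c) := by
    refine hnorm L (fun j N => ∀ j' : L, In N j' → j ≤ j' → ∀ c : A j', In N c →
      gen (A j) N ⊓ prj (f j j') c ≤ prj (f j j') (gen (A j') N ⊓ c)) fun j => ?_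
    refine hnorm L (fun j' N => j ≤ j' → ∀ c : A j', In N c →
      gen (A j) N ⊓ prj (f j j') c ≤ prj (f j j') (gen (A j') N ⊓ c)) fun j' => ?_
    by_cases h : j ≤ j'
    · filter_upwards [hpe j j' h] with N hN _
      exact hN
    · exact Filter.Eventually.of_forall fun N h' => absurd h' h
  have k14 : ∀ᶠ N in club, ∀ m : ℕ, ∀ j : L, In N j → ∀ j' : L, In N j' → ∀ c : C, In N c →
      In N (WW f e ι x Z m j j' c) := by
    refine hcount _ fun m => ?_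
    refine hnorm L (fun j N => ∀ j' : L, In N j' → ∀ c : C, In N c →
      In N (WW f e ι x Z m j j' c)) fun j => ?_
    refine hnorm L (fun j' N => ∀ c : C, In N c → In N (WW f e ι x Z m j j' c)) fun j' => ?_
    exact hf1 _ _ (WW f e ι x Z m j j')
  have k15 := hnorm L (fun j N => In N (BB.{u} C (A j))) fun j => hconst _ _
  have k16 := hf1 (C × Sw.{u}) C Prod.fst
  have k17 := hf1 (C × Sw.{u}) Sw.{u} Prod.snd
  have k18 : ∀ᶠ N in club, ∀ j : L, In N j → ∀ (c : C) (B : Sw.{u}), In N c → In N B →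
      In N (RR e ι Z j c B) :=
    hnorm L (fun j N => ∀ (c : C) (B : Sw.{u}), In N c → In N B → In N (RR e ι Z j c B))
      fun j => hf2 _ _ _ (RR e ι Z j)
  have k19 := hf1 C (Set L) sp
  have k20 := hset L
  have hall := ((((k1.and k2).and (k3.and k4)).and ((k5.and k6).and (k7.and k8))).and
    (((k9.and k10).and (k11.and k12)).and ((k13.and k14).and (k15.and k16)))).and
    ((k17.and k18).and (k19.and k20))
  obtain ⟨N, -, -, ⟨⟨⟨⟨n1, n2⟩, n3, n4⟩, ⟨n5, n6⟩, n7, n8⟩, ⟨⟨n9, n10⟩, n11, n12⟩, ⟨n13, n14⟩,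
    n15, n16⟩, ⟨n17, n18⟩, n19, n20⟩ := hex _ hall ∅ Set.countable_empty
  -- the strongly generic condition
  have hpne : prj (e i₀) c₁ ≠ ⊥ := fun h => hne ((prj_eq_bot (htop.ce i₀)).1 h)
  obtain ⟨t, -, htN, ht⟩ := n6 (prj (e i₀) c₁) n4 swTop n3 (by
    have h1 : ι i₀ (pr swTop) = ⊤ := (congrArg (ι i₀) pr_swTop).trans (f_top (hιce i₀))
    rw [h1, top_inf_eq]
    exact hpne)
  obtain ⟨s, hst, hsg⟩ := n7 t htN
  obtain ⟨g, hg, hgNG⟩ := exists_of_ae n8 (ht s hst hsg)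
  rw [g.mem_inf, g.mem_inf] at hg
  obtain ⟨hgs, hggen, hgp⟩ := hg
  have hpos : pos (ι i₀) (Z i₀ c₁) ∈ g := g.mono ((hZ i₀ le_rfl c₁ le_rfl).trans inf_le_right) hgp
  obtain ⟨B, hBN, hBg⟩ := hgNG hggen _ n5 hpos
  rw [g.mem_inf] at hBg
  have hsB : s ≤ B := by
    refine (n9 s B hsg hBN).resolve_right fun hno => ?_
    have h8 : (pr s ⊓ pr B : H1.RO Sw.{u}) ≠ ⊥ := by
      intro h9
      have h10 : ι i₀ (pr s) ⊓ ι i₀ (pr B) ∈ g := g.mem_inf.2 ⟨hgs, hBg.1⟩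
      rw [← f_inf (hιce i₀)] at h10
      have h11 : ι i₀ (pr s ⊓ pr B) = ⊥ := (congrArg (ι i₀) h9).trans (f_bot (hιce i₀))
      exact g.not_bot (h11 ▸ h10)
    obtain ⟨r, hr1, hr2⟩ := H16.exists_common h8
    exact hno r hr1 hr2
  obtain ⟨n₀, hn₀⟩ : ∃ n₀, ∀ n ∈ s.S, n₀ ≤ n → n ∈ B.S := by
    rw [Sw.le_def] at hsB
    obtain ⟨m, hm⟩ := hsB.bddAbove
    refine ⟨m + 1, fun n hn hmn => ?_⟩
    by_contra hnB
    have := hm (show n ∈ s.S \ B.S from ⟨hn, hnB⟩)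
    omega
  have hU0 : UU e ι Z N s n₀ i₀ c₁ ∈ g := by
    unfold UU
    rw [g.mem_inf, g.mem_inf, g.mem_inf]
    refine ⟨⟨hgs, hggen⟩, hgp, g.mono ?_ hBg.2⟩
    exact le_iInf₂ fun n hn => iInf₂_le n (hn₀ n hn.1 hn.2)
  -- the sequence
  have hLc : Countable {t : L // In N t} := n10
  have hLn : Nonempty {t : L // In N t} := ⟨⟨i₀, n1⟩⟩
  obtain ⟨ls, hls⟩ := exists_surjective_nat {t : L // In N t}
  let jj : ℕ → L := fun m => Nat.rec i₀ (fun m j => max j (ls m).1) m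
  have hjs : ∀ m, jj (m + 1) = max (jj m) (ls m).1 := fun _ => rfl
  have hjN : ∀ m, In N (jj m) := by
    intro m
    induction m with
    | zero => exact n1
    | succ m ih =>
      rw [hjs]
      rcases max_choice (jj m) (ls m).1 with h | h
      · rw [h]; exact ih
      · rw [h]; exact (ls m).2
  have hjmono : Monotone jj := monotone_nat_of_le_succ fun m => by
    rw [hjs]; exact le_max_left _ _
  have hji : ∀ m, i₀ ≤ jj m := fun m => hjmono (Nat.zero_le m)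
  have hjcof : ∀ l, In N l → ∃ m, l ≤ jj m := by
    intro l hl
    obtain ⟨m, hm⟩ := hls ⟨l, hl⟩
    refine ⟨m + 1, ?_⟩
    rw [hjs, hm]
    exact le_max_right _ _
  have hXc : Countable {c : C // In N c ∧ c ≤ c₁} := by
    have := n11
    have h1 : Function.Injective
        (fun c : {c : C // In N c ∧ c ≤ c₁} => (⟨c.1, c.2.1⟩ : {t : C // In N t})) := by
      intro a b h
      exact Subtype.ext (congrArg (fun t : {t : C // In N t} => t.1) h)
    exact h1.countable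
  obtain ⟨p, hp, hpae⟩ := hAF (fun m => A (jj m)) (fun m => f (jj m) (jj (m + 1))) C
    (fun m => e (jj m)) (fun m => hch.ce _ _ (hjmono (Nat.le_succ m))) (fun m => htop.ce _)
    (fun m a => htop.comp _ _ (hjmono (Nat.le_succ m)) a) (fun q hq => htp jj hjmono q hq)
    (fun _ => {c : C // In N c ∧ c ≤ c₁}) (fun m c => UU e ι Z N s n₀ (jj m) c.1)
    (fun m c c' => EE e x m c.1 c'.1)
    (fun m c => step hITP hch htop hdp hιf hZ (hji m) (hjmono (Nat.le_succ m)) c.2.2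
      (n12 (jj m) (hjN m) s hsg _ _ (n14 m (jj m) (hjN m) (jj (m + 1)) (hjN (m + 1)) c.1 c.2.1)
        (n15 (jj m) (hjN m)))
      (n13 (jj m) (hjN m) (jj (m + 1)) (hjN (m + 1)) (hjmono (Nat.le_succ m)))
      (n18 (jj (m + 1)) (hjN (m + 1))) fun t ht => ⟨n16 t ht, n17 t ht⟩)
    ⟨c₁, n2, le_rfl⟩ (UU e ι Z N s n₀ (jj 0) c₁) le_rfl
  -- the limit
  have hsup : ∀ᶠ h in ae C, ∀ c : {c : C // In N c}, Supp e c.1 →
      (∀ i ∈ sp c.1, e i (prj (e i) c.1) ∈ h) → c.1 ∈ h := by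
    have := n11
    refine ae_all fun c => ?_
    by_cases hc : Supp e c.1
    · obtain ⟨h1, -, h3⟩ := hsp c.1 hc
      have := h1.to_subtype
      filter_upwards [ae_iInf (A := C) fun i : sp c.1 => e i.1 (prj (e i.1) c.1)] with h hh _ h4
      have h5 : (⨅ i : sp c.1, e i.1 (prj (e i.1) c.1)) ∈ h := hh.2 fun i => h4 i.1 i.2
      exact h.mono (h3.trans iInf_subtype').ge h5
    · exact Filter.Eventually.of_forall fun h h' => absurd h' hc
  let Bs : Sw.{u} := ⟨⟨{n | n ∈ s.S ∧ n₀ ≤ n}⟩,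
    (s.infinite.sdiff (Set.finite_lt_nat n₀)).mono fun n hn => ⟨hn.1, not_lt.1 hn.2⟩⟩
  have hsBs : s ≤ Bs := by
    rw [Sw.le_def]
    refine (Set.finite_lt_nat n₀).subset fun n hn => ?_
    by_contra h
    exact hn.2 ⟨hn.1, not_lt.1 h⟩
  have key : ∀ᶠ h in ae C, p ∈ h → c₁ ⊓ pos κ x ∈ h := by
    filter_upwards [hpae, hsup, ae_iInf (A := C) fun n => ⨅ _ : n ∈ Bs.S, x n] with h h1 h2 h3 hph
    obtain ⟨ξ, -, hξ⟩ := h1 hph
    have hE : ∀ n, EE e x n (ξ n).1 (ξ (n + 1)).1 := fun n => (hξ n).1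
    have hU : ∀ n, e (jj n) (UU e ι Z N s n₀ (jj n) (ξ n).1) ∈ h := fun n => (hξ n).2
    have hanti : Antitone fun n => (ξ n).1 := antitone_nat_of_succ_le fun n => (hE n).1
    have hmem : ∀ m, (ξ (m + 1)).1 ∈ h := by
      intro m
      refine h2 ⟨(ξ (m + 1)).1, (ξ (m + 1)).2.1⟩ (hE m).2.1 fun i hi => ?_
      have hiN : In N i := n20 _ (n19 _ (ξ (m + 1)).2.1) (hsp _ (hE m).2.1).1 i hi
      obtain ⟨l, hl⟩ := hjcof i hiN
      have hil : i ≤ jj (max l (m + 1)) := hl.trans (hjmono (le_max_left _ _))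
      have q1 : e (jj (max l (m + 1))) (prj (e (jj (max l (m + 1)))) (ξ (max l (m + 1))).1) ∈ h :=
        h.mono ((f_le (htop.ce _)).2 (inf_le_right.trans inf_le_left)) (hU _)
      refine h.mono ?_ q1
      simp only
      rw [← htop.comp i _ hil, prj_comp (hch.ce i _ hil) (htop.ce _) (htop.comp i _ hil)]
      refine (f_le (htop.ce _)).2 ?_
      exact (prj_mono (htop.ce _) (hanti (le_max_right l (m + 1)))).trans
        (le_f_prj (hch.ce i _ hil) _)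
    refine h.mem_inf.2 ⟨h.mono (ξ 1).2.2 (hmem 0), ?_⟩
    unfold pos
    refine h.mono (le_iSup _ Bs) (h.mem_inf.2 ⟨?_, h3.2 fun n => ?_⟩)
    · have q2 : e (jj 0) (ι (jj 0) (pr s)) ∈ h :=
        h.mono ((f_le (htop.ce _)).2 (inf_le_left.trans inf_le_left)) (hU 0)
      refine h.mono ?_ q2
      rw [← hκ (jj 0)]
      exact (f_le (htop.ce _)).2 ((f_le (hιce _)).2 (pr_mono hsBs))
    · rw [mem_iInf_prop']
      intro hn
      rcases (hE n).2.2 n le_rfl with hx | hx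
      · exact h.mono hx (hmem n)
      · exfalso
        have q3 : UU e ι Z N s n₀ (jj (n + 1)) (ξ (n + 1)).1 = ⊥ := by
          rw [← le_bot_iff]
          have a2 : UU e ι Z N s n₀ (jj (n + 1)) (ξ (n + 1)).1 ≤ Z (jj (n + 1)) (ξ (n + 1)).1 n :=
            inf_le_right.trans (inf_le_right.trans (iInf₂_le n hn))
          have a3 : UU e ι Z N s n₀ (jj (n + 1)) (ξ (n + 1)).1 ≤
              (Z (jj (n + 1)) (ξ (n + 1)).1 n)ᶜ :=
            (inf_le_right.trans inf_le_left).trans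
              (((hZ (jj (n + 1)) (hji (n + 1)) _ (ξ (n + 1)).2.2).trans inf_le_left).trans
                (itp_le_compl (htop.ce _) hx))
          exact (le_inf a2 a3).trans (inf_compl_self _).le
        have q4 := hU (n + 1)
        rw [q3, f_bot (htop.ce _)] at q4
        exact h.not_bot q4
  have hle := le_of_ae key
  refine ⟨p, hle.trans inf_le_left, ?_, hle.trans inf_le_right⟩
  intro h
  rw [h] at hp
  have h1 : UU e ι Z N s n₀ i₀ c₁ = ⊥ := hp.symm.trans ((prj_eq_bot (htop.ce _)).2 rfl)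
  rw [h1] at hU0
  exact g.not_bot hU0

end

theorem pplim (hLB : LbStatement.{u}) (hITP : ItpStatement.{u}) (hITP2 : Itp2Statement.{u})
    (hD : DisjStatement.{u}) (hNG : NgStatement.{u}) (hGAP : GapStatement.{u})
    (hAF : AfStatement.{u, u}) (hSGS : SgsStatement.{u}) : PplimStatement.{u} := by
  intro L _ _ A _ f C _ e ι hch htop htp hdp hpe hιce hιpe hιf hPP i x
  have hκ : ∀ j y, e j (ι j y) = e i (ι i y) := by
    intro j y
    rcases le_total i j with h | h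
    · rw [← hιf i j h, htop.comp i j h]
    · rw [← hιf j i h, htop.comp j i h]
  by_contra hcon
  have hc₀ : (pos (fun y => e i (ι i y)) x ⊔ pos (fun y => e i (ι i y)) (cpl x))ᶜ ≠ ⊥ :=
    fun h => hcon (compl_eq_bot.1 h)
  obtain ⟨i₀, c₁, hc1, hne, hg⟩ := good hLB hITP hITP2 hD hch htop hιf hPP x hc₀
  rcases hg with hg | hg
  · obtain ⟨p, hp1, hp2, hp3⟩ := core hITP hNG hGAP hAF hSGS hch htop htp hdp hpe hιce hιpe hιf
      hPP (κ := fun y => e i (ι i y)) hκ hg hne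
    apply hp2
    rw [← le_bot_iff, ← inf_compl_self
      (pos (fun y => e i (ι i y)) x ⊔ pos (fun y => e i (ι i y)) (cpl x))]
    exact le_inf (hp3.trans le_sup_left) (hp1.trans hc1)
  · obtain ⟨p, hp1, hp2, hp3⟩ := core hITP hNG hGAP hAF hSGS hch htop htp hdp hpe hιce hιpe hιf
      hPP (κ := fun y => e i (ι i y)) hκ hg hne
    apply hp2
    rw [← le_bot_iff, ← inf_compl_self
      (pos (fun y => e i (ι i y)) x ⊔ pos (fun y => e i (ι i y)) (cpl x))]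
    exact le_inf (hp3.trans le_sup_right) (hp1.trans hc1)

end Pool.Agent.Lib.MP_6d445e_gt.H32
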