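import Pool.Agent.Lib.MP_6d445e_gt.Iface
import Pool.Agent.Lib.MP_6d445e_gt.H16.P2

/-!
# Module PPLIM, part 1: good interpretations
-/

universe u v w

open Cardinal Filter

namespace Pool.Agent.Lib.MP_6d445e_gt.H32.PA

open Pool.Agent.Lib.MP_6d445e_gt
open Pool.Agent.Lib.MP_100a6c_lc
open Pool.Agent.Lib.MP_c5d73d_lc.F (pr)
open Pool.Agent.Lib.MP_e6fef2_lc

section

variable {A C : Type u} [CompleteBooleanAlgebra A] [CompleteBooleanAlgebra C] {f : A → C}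

theorem f_top (hf : IsCE f) : f ⊤ = ⊤ := (all_alg A C f hf).1
theorem f_bot (hf : IsCE f) : f ⊥ = ⊥ := (all_alg A C f hf).2.1
theorem f_inf (hf : IsCE f) (a b : A) : f (a ⊓ b) = f a ⊓ f b := (all_alg A C f hf).2.2.1 a b
theorem f_le (hf : IsCE f) {a b : A} : f a ≤ f b ↔ a ≤ b := (all_alg A C f hf).2.2.2.2.1 a b
theorem f_iInf (hf : IsCE f) (a : ℕ → A) : f (⨅ i, a i) = ⨅ i, f (a i) :=
  (all_alg A C f hf).2.2.2.2.2.2.2.2.1 a
theorem le_f_prj (hf : IsCE f) (c : C) : c ≤ f (prj f c) :=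
  (all_alg A C f hf).2.2.2.2.2.2.2.2.2.1 c
theorem prj_le_iff (hf : IsCE f) {c : C} {a : A} : prj f c ≤ a ↔ c ≤ f a :=
  (all_alg A C f hf).2.2.2.2.2.2.2.2.2.2.1 c a
theorem prj_f (hf : IsCE f) (a : A) : prj f (f a) = a :=
  (all_alg A C f hf).2.2.2.2.2.2.2.2.2.2.2.1 a
theorem prj_mono (hf : IsCE f) {c d : C} (h : c ≤ d) : prj f c ≤ prj f d :=
  (all_alg A C f hf).2.2.2.2.2.2.2.2.2.2.2.2.1 c d h
theorem prj_iSup (hf : IsCE f) {T : Type u} (c : T → C) : prj f (⨆ i, c i) = ⨆ i, prj f (c i) :=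
  (all_alg A C f hf).2.2.2.2.2.2.2.2.2.2.2.2.2.1 T c
theorem prj_sSup (hf : IsCE f) (s : Set C) : prj f (sSup s) = ⨆ c ∈ s, prj f c :=
  (all_alg A C f hf).2.2.2.2.2.2.2.2.2.2.2.2.2.2.2.1 s
theorem prj_inf (hf : IsCE f) (c : C) (a : A) : prj f (c ⊓ f a) = prj f c ⊓ a :=
  (all_alg A C f hf).2.2.2.2.2.2.2.2.2.2.2.2.2.2.2.2.1 c a
theorem prj_eq_bot (hf : IsCE f) {c : C} : prj f c = ⊥ ↔ c = ⊥ :=
  (all_alg A C f hf).2.2.2.2.2.2.2.2.2.2.2.2.2.2.2.2.2.1 c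

theorem prj_comp {B : Type u} [CompleteBooleanAlgebra B] {g : A → B} {h : B → C} (hg : IsCE g)
    (hh : IsCE h) {k : A → C} (hk : ∀ a, h (g a) = k a) (c : C) : prj k c = prj g (prj h c) := by
  have h1 := (all_alg2 A B C g h hg hh).2.1 c
  rw [← h1]
  congr 1
  funext a
  exact (hk a).symm

theorem itp_le (c : C) (x : ℕ → C) (z : ℕ → A) (k : ℕ) {π : C → A} :
    itp f π c x z ≤ π (c ⊓ agr f z x k) := iInf_le _ k

theorem agr_le (x : ℕ → C) (z : ℕ → A) {n k : ℕ} (h : n < k) :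
    agr f z x k ≤ (f (z n) ⊓ x n) ⊔ ((f (z n))ᶜ ⊓ (x n)ᶜ) := iInf₂_le n h

theorem itp_le_of (hf : IsCE f) {c : C} {x : ℕ → C} {z : ℕ → A} {n : ℕ} (h : c ≤ x n) :
    itp f (prj f) c x z ≤ z n := by
  refine (itp_le c x z (n + 1)).trans ((prj_le_iff hf).2 ?_)
  have h1 : c ⊓ agr f z x (n + 1) ≤ x n ⊓ ((f (z n) ⊓ x n) ⊔ ((f (z n))ᶜ ⊓ (x n)ᶜ)) :=
    inf_le_inf h (agr_le x z (Nat.lt_succ_self n))
  refine h1.trans ?_
  rw [inf_sup_left]
  refine sup_le (inf_le_right.trans inf_le_left) ?_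
  have : x n ⊓ ((f (z n))ᶜ ⊓ (x n)ᶜ) = ⊥ := by
    rw [inf_left_comm, inf_compl_self, inf_bot_eq]
  rw [this]
  exact bot_le

theorem itp_le_compl (hf : IsCE f) {c : C} {x : ℕ → C} {z : ℕ → A} {n : ℕ} (h : c ≤ (x n)ᶜ) :
    itp f (prj f) c x z ≤ (z n)ᶜ := by
  refine (itp_le c x z (n + 1)).trans ((prj_le_iff hf).2 ?_)
  have h1 : c ⊓ agr f z x (n + 1) ≤ (x n)ᶜ ⊓ ((f (z n) ⊓ x n) ⊔ ((f (z n))ᶜ ⊓ (x n)ᶜ)) :=
    inf_le_inf h (agr_le x z (Nat.lt_succ_self n))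
  refine h1.trans ?_
  rw [inf_sup_left, hf.compl]
  refine sup_le ?_ (inf_le_right.trans inf_le_left)
  have : (x n)ᶜ ⊓ (f (z n) ⊓ x n) = ⊥ := by
    rw [inf_left_comm, compl_inf_self, inf_bot_eq]
  rw [this]
  exact bot_le

theorem agr_comp {B : Type u} [CompleteBooleanAlgebra B] {g : A → B} {h : B → C} {k : A → C}
    (hk : ∀ a, h (g a) = k a) (z : ℕ → A) (x : ℕ → C) (n : ℕ) :
    agr h (fun i => g (z i)) x n = agr k z x n := by
  unfold agr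
  simp only [hk]

end

/-! ### `pos` -/

section

variable {A : Type u} [CompleteBooleanAlgebra A] {ι : H1.RO Sw.{u} → A}

theorem pos_mono {w : A} {z z' : ℕ → A} (h : ∀ n, w ⊓ z n ≤ z' n) : w ⊓ pos ι z ≤ pos ι z' := by
  unfold pos
  rw [inf_iSup_eq]
  refine iSup_le fun B => le_trans ?_ (le_iSup _ B)
  refine le_inf (inf_le_right.trans inf_le_left) (le_iInf₂ fun n hn => ?_)
  exact le_trans (le_inf inf_le_left (inf_le_right.trans (inf_le_right.trans (iInf₂_le n hn))))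
    (h n)

theorem le_pos {w : A} {z : ℕ → A} {B : Sw.{u}} (h1 : w ≤ ι (pr B)) (h2 : ∀ n ∈ B.S, w ≤ z n) :
    w ≤ pos ι z :=
  le_trans (le_inf h1 (le_iInf₂ fun n hn => h2 n hn))
    (le_iSup (fun B : Sw.{u} => ι (pr B) ⊓ ⨅ n ∈ B.S, z n) B)

/-- a mixture -/
def mx {T : Type u} (w : T → A) (z : T → ℕ → A) (n : ℕ) : A := ⨆ t, w t ⊓ z t n

theorem mx_eq {T : Type u} {w : T → A} {z : T → ℕ → A} (hw : ∀ t t', t ≠ t' → w t ⊓ w t' = ⊥)
    (t : T) (n : ℕ) : w t ⊓ mx w z n = w t ⊓ z t n := by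
  unfold mx
  rw [inf_iSup_eq]
  apply le_antisymm
  · refine iSup_le fun t' => ?_
    by_cases h : t = t'
    · subst h
      exact le_inf inf_le_left (inf_le_right.trans inf_le_right)
    · rw [← inf_assoc, hw t t' h, bot_inf_eq]
      exact bot_le
  · exact le_trans (le_inf inf_le_left le_rfl) (le_iSup (fun t' => w t ⊓ (w t' ⊓ z t' n)) t)

end

/-! ### bad conditions -/

section

variable {A C : Type u} [CompleteBooleanAlgebra A] [CompleteBooleanAlgebra C]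

/-- no interpretation of `x` below `c` is in the ultrafilter -/
def Bad (e : A → C) (ι : H1.RO Sw.{u} → A) (x : ℕ → C) (c : C) : Prop :=
  ∀ c' ≤ c, ∀ z : ℕ → A, itp e (prj e) c' x z ⊓ pos ι z = ⊥

theorem push (hLB : LbStatement.{u}) (hITP : ItpStatement.{u}) (hITP2 : Itp2Statement.{u})
    {B : Type u} [CompleteBooleanAlgebra B] {f : A → B} {g : B → C} (hf : IsCE f) (hg : IsCE g)
    {c : C} {x : ℕ → C} {z : ℕ → B} {b : B} (hb : b ≤ itp g (prj g) c x z) :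
    ∃ z' : ℕ → A, prj f b ≤ itp (fun a => g (f a)) (prj fun a => g (f a)) c x z' ∧
      ∀ n, b ≤ z n → prj f b ≤ z' n := by
  have hadd : AddM f (prj f) := (hITP A B f hf).2.2.1
  obtain ⟨z', h1, -⟩ := hLB A B f hf (prj f) hadd b z fun _ => ⊤
  exact ⟨z', (hITP2 A B C f g hf hg).2 c x z z' b hb h1, fun n hn => h1.trans (itp_le_of hf hn)⟩

theorem bad_up (hLB : LbStatement.{u}) (hITP : ItpStatement.{u}) (hITP2 : Itp2Statement.{u})
    {B : Type u} [CompleteBooleanAlgebra B] {f : A → B} {g : B → C} {h : A → C} (hf : IsCE f)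
    (hg : IsCE g) (hgf : ∀ a, g (f a) = h a) {ι : H1.RO Sw.{u} → A} {ι' : H1.RO Sw.{u} → B}
    (hι : ∀ x, f (ι x) = ι' x) {x : ℕ → C} {c : C} (hbad : Bad h ι x c) : Bad g ι' x c := by
  intro c' hc' z
  unfold pos
  rw [inf_iSup_eq, iSup_eq_bot]
  intro S
  by_contra hne
  obtain ⟨z', h1, h2⟩ := push hLB hITP hITP2 hf hg (c := c') (x := x) (z := z)
    (b := itp g (prj g) c' x z ⊓ (ι' (pr S) ⊓ ⨅ n ∈ S.S, z n)) inf_le_left
  have hh : (fun a => g (f a)) = h := funext hgf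
  rw [hh] at h1
  have h3 := hbad c' hc' z'
  have h4 : prj f (itp g (prj g) c' x z ⊓ (ι' (pr S) ⊓ ⨅ n ∈ S.S, z n)) ≤
      itp h (prj h) c' x z' ⊓ pos ι z' := by
    refine le_inf h1 (le_pos (B := S) ?_ fun n hn => ?_)
    · rw [prj_le_iff hf, hι]
      exact inf_le_right.trans inf_le_left
    · exact h2 n (inf_le_right.trans (inf_le_right.trans (iInf₂_le n hn)))
  rw [h3, le_bot_iff, prj_eq_bot hf] at h4
  exact hne h4

/-- if no condition is bad, then there are good interpretations -/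
theorem good_of_not_bad (hITP : ItpStatement.{u}) (hD : DisjStatement.{u}) {e : A → C}
    (he : IsCE e) {ι : H1.RO Sw.{u} → A} {x : ℕ → C} {c₀ : C}
    (h : ∀ c ≤ c₀, c ≠ ⊥ → ¬ Bad e ι x c) {c : C} (hc : c ≤ c₀) :
    ∃ z : ℕ → A, prj e c ≤ itp e (prj e) c x z ⊓ pos ι z := by
  obtain ⟨-, hmono, hle, hmon, -, -, -, hcong, -⟩ := (hITP A C e he).2.2.2.2 (prj e)
    (hITP A C e he).2.2.1
  let a : (ℕ → A) → A := fun z => itp e (prj e) c x z ⊓ pos ι z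
  have h1 : prj e c ≤ ⨆ z, a z := by
    by_contra hcon
    have hb : prj e c ⊓ (⨆ z, a z)ᶜ ≠ ⊥ := by
      intro h2
      apply hcon
      rw [← sdiff_eq_bot_iff, sdiff_eq]
      exact h2
    have hb2 : c ⊓ e (⨆ z, a z)ᶜ ≠ ⊥ := by
      intro h2
      apply hb
      rw [← prj_inf he, h2]
      exact (prj_eq_bot he).2 rfl
    have h3 := h (c ⊓ e (⨆ z, a z)ᶜ) (inf_le_left.trans hc) hb2
    unfold Bad at h3
    push Not at h3
    obtain ⟨c', hc', z, hz⟩ := h3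
    apply hz
    rw [← le_bot_iff]
    have h4 : itp e (prj e) c' x z ≤ itp e (prj e) c x z := hmon _ _ _ _ (hc'.trans inf_le_left)
    have h5 : itp e (prj e) c' x z ≤ (⨆ z, a z)ᶜ := by
      refine (hle c' x z).trans ((prj_le_iff he).2 (hc'.trans inf_le_right))
    calc itp e (prj e) c' x z ⊓ pos ι z ≤ (⨆ z, a z)ᶜ ⊓ a z :=
          le_inf (inf_le_left.trans h5) (le_inf (inf_le_left.trans h4) inf_le_right)
      _ ≤ (⨆ z, a z)ᶜ ⊓ ⨆ z, a z := inf_le_inf_left _ (le_iSup a z)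
      _ = ⊥ := compl_inf_self _
  obtain ⟨w, hw1, hw2, hw3⟩ := hD A (ℕ → A) a
  refine ⟨mx w fun z => z, ?_⟩
  rw [← hw3] at h1
  refine h1.trans (iSup_le fun z => ?_)
  have h2 : ∀ n, w z ⊓ z n = w z ⊓ mx w (fun z => z) n := fun n =>
    (mx_eq (z := fun z : ℕ → A => z) hw2 z n).symm
  refine le_inf ?_ ?_
  · have h3 : w z ⊓ itp e (prj e) c x z ≤ itp e (prj e) c x (mx w fun z => z) := by
      rw [hcong c x z (mx w fun z => z) (w z) h2]
      exact inf_le_right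
    exact le_trans (le_inf le_rfl ((hw1 z).trans inf_le_left)) h3
  · have h3 : w z ⊓ pos ι z ≤ pos ι (mx w fun z => z) :=
      pos_mono fun n => (h2 n).le.trans inf_le_right
    exact le_trans (le_inf le_rfl ((hw1 z).trans inf_le_right)) h3

end

section

variable {L : Type u} [LinearOrder L] {A : L → Type u} [∀ i, CompleteBooleanAlgebra (A i)]
  {f : ∀ i j, A i → A j} {C : Type u} [CompleteBooleanAlgebra C] {e : ∀ i, A i → C}
  {ι : ∀ i, H1.RO Sw.{u} → A i}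

/-- `x` has good interpretations below the condition `c₁` from `i₀` on -/
def Good (e : ∀ i, A i → C) (ι : ∀ i, H1.RO Sw.{u} → A i) (x : ℕ → C) (i₀ : L) (c₁ : C) : Prop :=
  ∀ j, i₀ ≤ j → ∀ c ≤ c₁, ∃ z : ℕ → A j, prj (e j) c ≤ itp (e j) (prj (e j)) c x z ⊓ pos (ι j) z

theorem good [Nonempty L] (hLB : LbStatement.{u}) (hITP : ItpStatement.{u})
    (hITP2 : Itp2Statement.{u}) (hD : DisjStatement.{u}) (hch : IsCh A f) (htop : IsTop A f e)
    (hιf : ∀ i j, i ≤ j → ∀ x, f i j (ι i x) = ι j x) (hPP : ∀ i, PP (ι i)) (x : ℕ → C) {c₀ : C}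
    (hc₀ : c₀ ≠ ⊥) : ∃ (i₀ : L) (c₁ : C), c₁ ≤ c₀ ∧ c₁ ≠ ⊥ ∧
      (Good e ι x i₀ c₁ ∨ Good e ι (cpl x) i₀ c₁) := by
  by_cases hcase : ∃ c₁ ≤ c₀, c₁ ≠ ⊥ ∧ ∃ i₀, Bad (e i₀) (ι i₀) x c₁
  · obtain ⟨c₁, hc₁, hne, i₀, hbad⟩ := hcase
    refine ⟨i₀, c₁, hc₁, hne, Or.inr ?_⟩
    intro j hj c hc
    obtain ⟨-, -, -, -, -, -, hcpl, -⟩ := (hITP (A j) C (e j) (htop.ce j)).2.2.2.2 (prj (e j))
      (hITP (A j) C (e j) (htop.ce j)).2.2.1
    obtain ⟨z, hz, -⟩ := hLB (A j) C (e j) (htop.ce j) (prj (e j))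
      (hITP (A j) C (e j) (htop.ce j)).2.2.1 c x fun _ => ⊤
    have hbad' := bad_up hLB hITP hITP2 (hch.ce i₀ j hj) (htop.ce j) (htop.comp i₀ j hj)
      (hιf i₀ j hj) hbad c hc z
    refine ⟨cpl z, le_inf ?_ ?_⟩
    · rw [hcpl]
      exact hz
    · have h1 : prj (e j) c ⊓ pos (ι j) z = ⊥ := by
        rw [← le_bot_iff, ← hbad']
        exact inf_le_inf_right _ hz
      calc prj (e j) c = prj (e j) c ⊓ (pos (ι j) z ⊔ pos (ι j) (cpl z)) := by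
            rw [hPP j z, inf_top_eq]
        _ = prj (e j) c ⊓ pos (ι j) (cpl z) := by rw [inf_sup_left, h1, bot_sup_eq]
        _ ≤ _ := inf_le_right
  · push Not at hcase
    refine ⟨Classical.arbitrary L, c₀, le_rfl, hc₀, Or.inl ?_⟩
    intro j _ c hc
    exact good_of_not_bad hITP hD (htop.ce j) (fun c' hc' hne => hcase c' hc' hne j) hc

end

end Pool.Agent.Lib.MP_6d445e_gt.H32.PA
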